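import Pool.Agent.X178.FD.DegOne

/-!
# Fractional t-dimension of posets whose comparability graph has maximum degree one

* `MFD_t(1) ≥ (2 / (t - 1)) (t + 1 / (1 + √(2 - 2 / t)))` for all `t ≥ 2`.
* For `t = 2` there is equality: `MFD_2(1) = 5`.
-/

namespace Pool.Agent.Results.MP_2ea9c5_co.DegreeOne

open Pool.Agent.X178.FD

theorem low (t : ℕ) (ht : 2 ≤ t) (B : ℝ)
    (hB : ∀ (P : Type) [Fintype P] [PartialOrder P], MaxDeg P 1 → fdimP P t ≤ B) :
    (2 / ((t : ℝ) - 1)) * (t + 1 / (1 + Real.sqrt (2 - 2 / t))) ≤ B := by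
  have htR : (2 : ℝ) ≤ t := by exact_mod_cast ht
  have ht0 : (0 : ℝ) < t := by linarith
  have ht1 : (0 : ℝ) < (t : ℝ) - 1 := by linarith
  have hD : (0 : ℝ) ≤ 2 - 2 / t := by
    have : (2 : ℝ) / t ≤ 1 := by rw [div_le_one ht0]; exact htR
    linarith
  set s := Real.sqrt (2 - 2 / (t : ℝ)) with hs
  have hs0 : 0 ≤ s := Real.sqrt_nonneg _
  have hs2 : s ^ 2 = 2 - 2 / t := Real.sq_sqrt hD
  have hs3 : t * s ^ 2 = 2 * t - 2 := by
    rw [hs2]
    field_simp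
  have h1s : (0 : ℝ) < 1 + s := by linarith
  have h := lowTwo t ht (1 / (t * (1 + s))) (by positivity) (by
    have e : ((t : ℝ) - 2) * (1 / (t * (1 + s))) ^ 2 + 2 * (1 / (t * (1 + s))) =
        (((t : ℝ) - 2) + 2 * t * (1 + s)) / (t * (t * (1 + s) ^ 2)) := by
      field_simp
    rw [e, div_eq_div_iff (by positivity) (by positivity)]
    nlinarith [hs3]) B hB
  have e : (1 + 1 / ((t : ℝ) * (1 + s))) * (2 * t / (t - 1)) =
      (2 / ((t : ℝ) - 1)) * (t + 1 / (1 + s)) := by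
    field_simp
  rw [e] at h
  exact h

theorem result :
    (∀ (t : ℕ), 2 ≤ t → ∀ B : ℝ,
      (∀ (P : Type) [Fintype P] [PartialOrder P], MaxDeg P 1 → fdimP P t ≤ B) →
      (2 / ((t : ℝ) - 1)) * (t + 1 / (1 + Real.sqrt (2 - 2 / t))) ≤ B) ∧
    IsLUB {r : ℝ | ∃ (P : Type) (_ : Fintype P) (_ : PartialOrder P),
      MaxDeg P 1 ∧ r = fdimP P 2} 5 := by
  refine ⟨low, ?_, ?_⟩
  · rintro r ⟨P, _, _, hP, rfl⟩
    exact upTwo P hP.1
  · intro b hb
    have h := low 2 le_rfl b (fun P _ _ hP => hb ⟨P, _, _, hP, rfl⟩)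
    norm_num at h
    linarith

end Pool.Agent.Results.MP_2ea9c5_co.DegreeOne
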