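import Pool.Agent.X178.FD.Poset
import Pool.Agent.X178.FD.Low

/-!
# Fractional t-dimension of posets of bounded degree

* If every element of the finite poset `P` has at most `Δ` elements strictly below it, then the
  fractional `t`-dimension of `P` is at most `1 / M (Δ + 1) (t - 1)`, for every `t ≥ 2`.
* For `Δ = 0` this is sharp: the supremum over all antichains is `2 t / (t - 1)`.
-/

namespace Pool.Agent.Results.MP_2ea9c5_co.DownDegreeBound

open Pool.Agent.X178.FD

theorem M_one (m : ℕ) : M 1 m = (m : ℝ) / (2 * (m + 1)) := by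
  induction m with
  | zero => simp [M]
  | succ m ih =>
    rw [M, ih]
    have h1 : (1 : ℝ) - (m : ℝ) / (2 * (m + 1)) = ((m : ℝ) + 2) / (2 * (m + 1)) := by
      field_simp
      ring
    rw [h1, pow_one]
    push_cast
    field_simp
    ring

theorem iff_realiser (n k t : ℕ) (w : (Q n k → Fin t) → ℝ) :
    RealiserP (Q n k) t w ↔ Realiser n k t w := by
  constructor
  · intro h
    refine ⟨h.nonneg, h.mono, fun x y hxy => ?_⟩
    convert h.cover x y hxy using 2
    ext f
    simp only [Finset.mem_univ]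
  · intro h
    refine ⟨h.nonneg, h.mono, fun x y hxy => ?_⟩
    convert h.cover x y hxy using 2
    ext f
    simp only [Finset.mem_univ]

theorem anti (n m : ℕ) (hn : 1 < n) :
    (((n : ℝ) - 1) / n) / M 1 (m + 1) ≤ fdimP (Q n 1) (m + 1 + 1) := by
  refine le_csInf ?_ ?_
  · obtain ⟨w, hw, h⟩ := upP (Q n 1) 1 m le_rfl (fun x => by
      rw [Finset.card_le_one]
      intro a ha b hb
      simp only [Finset.mem_filter, Finset.mem_univ, true_and] at ha hb
      have ha' : a.1 ⊆ x.1 := ha
      have hb' : b.1 ⊆ x.1 := hb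
      have e : ∀ y : Q n 1, y.1.card = 1 := fun y => by rcases y.2 with h | h <;> exact h
      have h1 := Finset.eq_of_subset_of_card_le ha' (by rw [e, e])
      have h2 := Finset.eq_of_subset_of_card_le hb' (by rw [e, e])
      exact Subtype.ext (h1.trans h2.symm))
    exact ⟨_, w, hw, h⟩
  · rintro W ⟨w, hw, rfl⟩
    have h1 := low n 1 (m + 1) le_rfl w ((iff_realiser _ _ _ _).1 hw)
    have hM := M_pos 1 le_rfl m
    have hn0 : (0 : ℝ) < n := by
      have : 0 < n := by omega
      exact_mod_cast this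
    rw [Nat.descFactorial_one, Nat.cast_sub (by omega), Nat.cast_one] at h1
    rw [div_le_iff₀ hM, div_le_iff₀ hn0]
    have h2 : (∑ f, w f) * (M 1 (m + 1) * (n : ℝ) ^ (1 + 1)) =
        n * ((∑ f, w f) * M 1 (m + 1) * n) := by ring
    rw [h2] at h1
    have h5 := le_of_mul_le_mul_left h1 hn0
    convert h5 using 4
    ext f
    simp only [Finset.mem_univ]

theorem result :
    (∀ (P : Type) [Fintype P] [PartialOrder P] (t Δ : ℕ), 2 ≤ t →
      (∀ x : P, {z : P | z < x}.ncard ≤ Δ) →
      fdimP P t ≤ 1 / M (Δ + 1) (t - 1)) ∧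
    (∀ t : ℕ, 2 ≤ t →
      IsLUB {r : ℝ | ∃ (P : Type) (_ : Fintype P) (_ : PartialOrder P),
        (∀ x y : P, x ≤ y → x = y) ∧ r = fdimP P t} (2 * t / (t - 1))) := by
  classical
  have part1 : ∀ (P : Type) [Fintype P] [PartialOrder P] (t Δ : ℕ), 2 ≤ t →
      (∀ x : P, {z : P | z < x}.ncard ≤ Δ) → fdimP P t ≤ 1 / M (Δ + 1) (t - 1) := by
    intro P _ _ t Δ ht hΔ
    obtain ⟨m, rfl⟩ : ∃ m, t = m + 1 + 1 := ⟨t - 2, by omega⟩
    rw [Nat.add_sub_cancel]
    refine fdimP_le P (Δ + 1) m (by omega) fun x => ?_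
    have h1 : (Finset.univ.filter (fun z : P => z ≤ x)) =
        insert x (Finset.univ.filter (fun z : P => z < x)) := by
      ext z
      simp only [Finset.mem_filter, Finset.mem_univ, true_and, Finset.mem_insert]
      exact le_iff_eq_or_lt
    have h2 : (Finset.univ.filter (fun z : P => z < x)).card ≤ Δ := by
      have h3 := hΔ x
      rw [Set.ncard_eq_toFinset_card'] at h3
      convert h3 using 2
      ext z
      simp
    have h4 := Finset.card_insert_le x (Finset.univ.filter (fun z : P => z < x))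
    have h5 : (Finset.univ.filter (fun z : P => z ≤ x)).card ≤ Δ + 1 := by
      rw [h1]; omega
    convert h5
  refine ⟨part1, ?_⟩
  intro t ht
  have hval : (1 : ℝ) / M 1 (t - 1) = 2 * t / (t - 1) := by
    obtain ⟨m, rfl⟩ : ∃ m, t = m + 1 + 1 := ⟨t - 2, by omega⟩
    rw [Nat.add_sub_cancel, M_one]
    push_cast
    have : ((m : ℝ) + 1 + 1 - 1) = m + 1 := by ring
    rw [this]
    field_simp
  rw [← hval]
  constructor
  · rintro r ⟨P, _, _, hP, rfl⟩
    have h1 := part1 P t 0 ht (fun x => by
      have : {z : P | z < x} = ∅ := by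
        ext z
        simp only [Set.mem_ofPred_eq, Set.mem_empty_iff_false, iff_false]
        intro h
        exact h.ne (hP z x h.le)
      rw [this, Set.ncard_empty])
    simpa using h1
  · intro b hb
    obtain ⟨m, rfl⟩ : ∃ m, t = m + 1 + 1 := ⟨t - 2, by omega⟩
    rw [Nat.add_sub_cancel]
    have hM := M_pos 1 le_rfl m
    have h1 : ∀ n : ℕ, 1 < n → (((n : ℝ) - 1) / n) / M 1 (m + 1) ≤ b := by
      intro n hn
      refine (anti n m hn).trans (hb ⟨Q n 1, inferInstance, inferInstance, ?_, rfl⟩)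
      intro x y hxy
      have hxy' : x.1 ⊆ y.1 := hxy
      have e : ∀ y : Q n 1, y.1.card = 1 := fun y => by rcases y.2 with h | h <;> exact h
      exact Subtype.ext (Finset.eq_of_subset_of_card_le hxy' (by rw [e, e]))
    have h2 : Filter.Tendsto (fun n : ℕ => (((n : ℝ) - 1) / n) / M 1 (m + 1)) Filter.atTop
        (nhds (1 / M 1 (m + 1))) := by
      have h3 : Filter.Tendsto (fun n : ℕ => 1 - (1 : ℝ) / n) Filter.atTop (nhds (1 - 0)) :=
        tendsto_const_nhds.sub (tendsto_const_div_atTop_nhds_zero_nat (1 : ℝ))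
      rw [sub_zero] at h3
      refine (h3.div_const (M 1 (m + 1))).congr' ?_
      filter_upwards [Filter.eventually_gt_atTop 0] with n hn
      have hn0 : (n : ℝ) ≠ 0 := by exact_mod_cast hn.ne'
      congr 1
      rw [sub_div, div_self hn0]
    refine le_of_tendsto h2 ?_
    filter_upwards [Filter.eventually_gt_atTop 1] with n hn
    exact h1 n hn

end Pool.Agent.Results.MP_2ea9c5_co.DownDegreeBound
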