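import Pool.Agent.X178.FD.Local

/-!
# The fractional local t-dimension of antichains

For every `t ≥ 2` the supremum of the fractional local `t`-dimension over all nonempty finite
antichains is `2 t / (t - 1)`.
-/

namespace Pool.Agent.Results.MP_2ea9c5_co.LocalAntichains

open Pool.Agent.X178.FD

theorem result (t : ℕ) (ht : 2 ≤ t) :
    IsLUB {r : ℝ | ∃ (P : Type) (_ : Fintype P) (_ : PartialOrder P), Nonempty P ∧
      (∀ x y : P, x ≤ y → x = y) ∧ r = fldimP P t} (2 * t / (t - 1)) := by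
  obtain ⟨m, rfl⟩ : ∃ m, t = m + 1 + 1 := ⟨t - 2, by omega⟩
  have h := lubL m
  have e : (2 * ((m + 1 + 1 : ℕ) : ℝ) / (((m + 1 + 1 : ℕ) : ℝ) - 1)) =
      2 * ((m : ℝ) + 2) / (m + 1) := by
    push_cast
    congr 1 <;> ring
  rw [e]
  exact h

end Pool.Agent.Results.MP_2ea9c5_co.LocalAntichains
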